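import Pool.Agent.QPt.Main

/-!
# It is consistent with ZFC that there is exactly one Q-point, and it is not Ramsey

There is a first-order model `(M, E)` of ZFC in which there is, up to isomorphism, exactly one Q-point, and
this Q-point is not Ramsey.  The model is a quotient, by an ultrafilter, of the Boolean-valued universe over
the regular open algebra of the following forcing: a countable support iteration (of length the successor of
the continuum) of the forcing which adds a branch through the columns of `ω` by conditions consisting of a
stem and a set with infinite columns, followed by the ultrapower, by any nonprincipal ultrafilter `W` of the
extension, of the forcing with infinite sets ordered by almost inclusion.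
-/

set_option autoImplicit false

namespace Pool.Agent.Results.MP_04bc06_lc.UniqueQPoint

open Pool.Agent.BVM Pool.Agent.QPt

/-- There is a model `(M, E)` of ZFC in which there is, up to isomorphism, exactly one Q-point, and it is
not Ramsey. -/
theorem result : ∃ (M : Type 1) (E : M → M → Prop), IsModelZFC E ∧ HasUniqueNonRamseyQPoint E :=
  consistent

end Pool.Agent.Results.MP_04bc06_lc.UniqueQPoint
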